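import Pool.Agent.Helper30.TR.Spec

/-!
# Part HD: the regular polygon contains a disc
-/

set_option autoImplicit false

namespace Pool.Agent.Helper52.TR.HD

open MeasureTheory Set Pool.Agent.Helper30.TriFace Pool.Agent.Helper30.TR
open scoped Classical

/-- a vertex in almost every direction -/
theorem exists_vertex (n : ℕ) (hn : 3 ≤ n) (φ : ℝ) :
    ∃ k : Fin n, 1 / 2 ≤ Real.cos (2 * Real.pi * (k : ℕ) / n - φ) := by
  have hn0 : (0 : ℝ) < n := by
    have : 0 < n := by omega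
    exact_mod_cast this
  have hpi := Real.pi_pos
  set q : ℤ := round (φ * n / (2 * Real.pi)) with hq
  have h1 : |φ * n / (2 * Real.pi) - q| ≤ 1 / 2 := abs_sub_round _
  have hnz : (n : ℤ) ≠ 0 := by
    have : 0 < n := by omega
    exact_mod_cast this.ne'
  have hlt : (q % n).toNat < n := by
    have h2 := Int.emod_nonneg q hnz
    have h3 := Int.emod_lt_of_pos q (show (0 : ℤ) < n by
      have : 0 < n := by omega
      exact_mod_cast this)
    omega
  refine ⟨⟨(q % n).toNat, hlt⟩, ?_⟩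
  have h4 : (((q % n).toNat : ℕ) : ℝ) = (q : ℝ) - n * ((q / n : ℤ) : ℝ) := by
    have h2 := Int.emod_nonneg q hnz
    have h5 : (((q % n).toNat : ℕ) : ℤ) = q - n * (q / n) := by
      rw [Int.toNat_of_nonneg h2]
      have := Int.emod_add_mul_ediv q n
      linarith
    exact_mod_cast congrArg (fun z : ℤ => (z : ℝ)) h5
  have h6 : 2 * Real.pi * (((⟨(q % n).toNat, hlt⟩ : Fin n) : ℕ) : ℝ) / n - φ =
      (2 * Real.pi * q / n - φ) - ((q / n : ℤ) : ℝ) * (2 * Real.pi) := by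
    show 2 * Real.pi * (((q % n).toNat : ℕ) : ℝ) / n - φ = _
    rw [h4]
    field_simp
    ring
  rw [h6, Real.cos_sub_int_mul_two_pi]
  have h7 : |2 * Real.pi * q / n - φ| ≤ Real.pi / 3 := by
    have h8 : 2 * Real.pi * q / n - φ = -(φ * n / (2 * Real.pi) - q) * (2 * Real.pi / n) := by
      field_simp
      ring
    rw [h8, abs_mul, abs_neg, abs_of_pos (by positivity : 0 < 2 * Real.pi / (n : ℝ))]
    have h9 : 2 * Real.pi / (n : ℝ) ≤ 2 * Real.pi / 3 := by
      apply div_le_div_of_nonneg_left (by positivity) (by norm_num)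
      exact_mod_cast hn
    calc |φ * n / (2 * Real.pi) - q| * (2 * Real.pi / n) ≤ 1 / 2 * (2 * Real.pi / 3) :=
          mul_le_mul h1 h9 (by positivity) (by norm_num)
      _ = Real.pi / 3 := by ring
  rw [← Real.cos_abs, ← Real.cos_pi_div_three]
  exact Real.cos_le_cos_of_nonneg_of_le_pi (abs_nonneg _) (by linarith) h7

theorem le_of_sq_le_sq_aux {α β a b N : ℝ} (hN : N ^ 2 = α ^ 2 + β ^ 2)
    (h : a ^ 2 + b ^ 2 ≤ (1 / 2) ^ 2) (hN0 : 0 ≤ N) : α * a + β * b ≤ N * (1 / 2) := by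
  apply le_of_not_gt
  intro hlt
  have h1 : (N * (1 / 2)) ^ 2 < (α * a + β * b) ^ 2 :=
    pow_lt_pow_left₀ hlt (by positivity) two_ne_zero
  nlinarith [sq_nonneg (α * b - β * a), mul_le_mul_of_nonneg_left h (sq_nonneg N)]

theorem main : S_HD := by
  intro n hn x hx
  by_contra hcon
  have hcl : IsClosed (convexHull ℝ (range (rg n))) :=
    (Set.finite_range (rg n)).isClosed_convexHull ℝ
  obtain ⟨f, u, h1, h2⟩ := geometric_hahn_banach_closed_point (convex_convexHull ℝ _) hcl hcon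
  set α := f (1, 0) with hα
  set β := f (0, 1) with hβ
  have hf : ∀ y : ℝ × ℝ, f y = α * y.1 + β * y.2 := by
    intro y
    have : y = y.1 • ((1 : ℝ), (0 : ℝ)) + y.2 • ((0 : ℝ), (1 : ℝ)) := by
      ext <;> simp
    conv_lhs => rw [this]
    rw [map_add, map_smul, map_smul, smul_eq_mul, smul_eq_mul]
    ring
  set z : ℂ := ⟨α, β⟩ with hz
  have hz1 : ‖z‖ * Real.cos (Complex.arg z) = α := Complex.norm_mul_cos_arg z
  have hz2 : ‖z‖ * Real.sin (Complex.arg z) = β := Complex.norm_mul_sin_arg z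
  obtain ⟨k, hk⟩ := exists_vertex n hn (Complex.arg z)
  have h3 := h1 (rg n k) (subset_convexHull ℝ _ (mem_range_self k))
  rw [hf] at h3
  rw [hf] at h2
  have h4 : α * (rg n k).1 + β * (rg n k).2 =
      ‖z‖ * Real.cos (2 * Real.pi * (k : ℕ) / n - Complex.arg z) := by
    rw [Real.cos_sub]
    simp only [rg]
    rw [← hz1, ← hz2]
    ring
  rw [h4] at h3
  have h5 : ‖z‖ * (1 / 2) ≤ ‖z‖ * Real.cos (2 * Real.pi * (k : ℕ) / n - Complex.arg z) :=
    mul_le_mul_of_nonneg_left hk (norm_nonneg z)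
  have h6 : α * x.1 + β * x.2 ≤ ‖z‖ * (1 / 2) := by
    have hx' : x.1 ^ 2 + x.2 ^ 2 ≤ (1 / 2) ^ 2 := hx
    have hzn : ‖z‖ ^ 2 = α ^ 2 + β ^ 2 := by
      rw [← Complex.normSq_eq_norm_sq, Complex.normSq_mk]
      ring
    refine le_of_sq_le_sq_aux hzn hx' (norm_nonneg z)
  linarith

end Pool.Agent.Helper52.TR.HD
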