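import Pool.Agent.Helper30.TR.Spec

/-!
# Part PK: packing
-/

set_option autoImplicit false

namespace Pool.Agent.Helper52.TR.PK

open MeasureTheory Set Pool.Agent.Helper30.TriFace Pool.Agent.Helper30.TR
open scoped Classical

theorem vol_box (y : ℝ × ℝ) (r : ℝ) (hr : 0 ≤ r) :
    volume (Icc (y.1 - r) (y.1 + r) ×ˢ Icc (y.2 - r) (y.2 + r) : Set (ℝ × ℝ)) =
      ENNReal.ofReal ((2 * r) ^ 2) := by
  rw [Measure.volume_eq_prod, Measure.prod_prod, Real.volume_Icc, Real.volume_Icc,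
    ← ENNReal.ofReal_mul (by linarith)]
  congr 1
  ring

theorem main : S_PK := by
  intro 𝓕 G r hfin hr hG
  let y : Set (ℝ × ℝ) → ℝ × ℝ := fun F => if h : F.Nonempty then h.some else 0
  have hsub : G ⊆ ⋃ F ∈ hfin.toFinset,
      (Icc ((y F).1 - r) ((y F).1 + r) ×ˢ Icc ((y F).2 - r) ((y F).2 + r) : Set (ℝ × ℝ)) := by
    intro x hx
    obtain ⟨F, hF, hne, h⟩ := hG x hx
    have hy : y F ∈ F := by
      simp only [y, dif_pos hne]
      exact hne.some_mem
    obtain ⟨h1, h2⟩ := h (y F) hy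
    rw [abs_le] at h1 h2
    simp only [Finite.mem_toFinset, mem_iUnion]
    refine ⟨F, hF, ?_⟩
    rw [mem_prod, mem_Icc, mem_Icc]
    refine ⟨⟨?_, ?_⟩, ⟨?_, ?_⟩⟩ <;> linarith [h1.1, h1.2, h2.1, h2.2]
  have h1 : volume G ≤ ∑ F ∈ hfin.toFinset, ENNReal.ofReal ((2 * r) ^ 2) := by
    refine (measure_mono hsub).trans ?_
    refine (measure_biUnion_finset_le _ _).trans ?_
    exact Finset.sum_le_sum fun F _ => le_of_eq (vol_box (y F) r hr)
  rw [Finset.sum_const, nsmul_eq_mul] at h1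
  have h2 : ar G ≤ ((hfin.toFinset.card : ENNReal) * ENNReal.ofReal ((2 * r) ^ 2)).toReal := by
    unfold ar
    refine ENNReal.toReal_mono ?_ h1
    exact ENNReal.mul_ne_top (ENNReal.natCast_ne_top _) ENNReal.ofReal_ne_top
  rw [ENNReal.toReal_mul, ENNReal.toReal_natCast, ENNReal.toReal_ofReal (by positivity)] at h2
  rw [ncard_eq_toFinset_card 𝓕 hfin]
  exact h2

end Pool.Agent.Helper52.TR.PK
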